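import Pool.Agent.H89.FC.TargetsN

/-!
# Row NCO of the board `fmx_modules`: for almost all pairs of a discriminant and a conductor all
`L`-functions are small
-/

set_option autoImplicit false

open MeasureTheory Set Filter NumberField
open scoped Real nonZeroDivisors

namespace Pool.Agent.H68.FC

open Pool.Agent.H31.CN Pool.Agent.H89.FM Pool.Agent.H61.FM Pool.Agent.H89.FC

theorem pf_CORc (hFM2 : T_FM2c) : T_CORc := by
  classical
  intro ε hε
  obtain ⟨C₁, A, hC₁, h⟩ := hFM2 ε hε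
  have h4 : (4 : ℝ) ^ (-ε) < 1 := Real.rpow_lt_one_of_one_lt_of_neg (by norm_num) (by linarith)
  have h40 : 0 < (4 : ℝ) ^ (-ε) := by positivity
  have h41 : 0 < 1 - (4 : ℝ) ^ (-ε) := by linarith
  refine ⟨16 * C₁ / (1 - 4 ^ (-ε)), A, div_pos (by positivity) h41, ?_⟩
  intro X₀ η K _ _ σ S₁ F T hX₀ hη0 hη1 hF₁ hT
  obtain ⟨C, hC⟩ : ∃ C, C = 16 * C₁ / (1 - (4 : ℝ) ^ (-ε)) := ⟨_, rfl⟩
  rw [← hC]
  have hC0 : 0 < C := by
    rw [hC]
    exact div_pos (by positivity) h41
  have hCe : 16 * C₁ + C * (4 : ℝ) ^ (-ε) = C := by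
    have h5 : C * (1 - (4 : ℝ) ^ (-ε)) = 16 * C₁ := by
      rw [hC]
      exact div_mul_cancel₀ _ h41.ne'
    linarith
  have ha : ε ≤ 1 - 4 * η + ε := by linarith
  obtain ⟨q, hq⟩ : ∃ q : IX K → ℝ, ∀ y, q y = (y.1 : ℝ) * (y.2.1 : ℝ) ^ 2 :=
    ⟨fun y => (y.1 : ℝ) * (y.2.1 : ℝ) ^ 2, fun y => rfl⟩
  obtain ⟨P, hP⟩ : ∃ P : IX K → ℝ → Prop, ∀ y t, P y t ↔
      (1 + |t| + |(y.2.2.1 : ℝ)|) ^ A * (q y) ^ (1 / 8 + η) < ‖F y (1 / 2 + t * Complex.I)‖ :=
    ⟨fun y t => (1 + |t| + |(y.2.2.1 : ℝ)|) ^ A * (q y) ^ (1 / 8 + η) <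
      ‖F y (1 / 2 + t * Complex.I)‖, fun y t => Iff.rfl⟩
  have hqpos : ∀ (X : ℝ) (S : Finset (IX K)), Fam K σ S F 0 X → ∀ y ∈ S, 1 ≤ q y := by
    intro X S hF y hy
    have h2 : 0 < y.1 := (hF.iq y hy).pos
    have h3 : (1 : ℝ) ≤ y.1 := by exact_mod_cast h2
    have h5 : 0 < y.2.1 := (hF.ch y hy).pos
    have h6 : (1 : ℝ) ≤ y.2.1 := by exact_mod_cast h5
    rw [hq]
    nlinarith [one_le_pow₀ h6 (n := 2)]
  -- one dyadic range
  have one : ∀ (X : ℝ) (S : Finset (IX K)), 1 ≤ X → Fam K σ S F 0 X → (∀ y ∈ S, X / 4 ≤ q y) →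
      (∀ y ∈ S, ∃ t : ℝ, P y t) → (S.card : ℝ) ≤ 8 * C₁ * X ^ (1 - 4 * η + ε) := by
    intro X S hX hF hXD hS
    have hX0 : 0 < X := by linarith
    have hex : ∀ y, ∃ t : ℝ, y ∈ S → P y t := by
      intro y
      by_cases hy : y ∈ S
      · obtain ⟨t, h1⟩ := hS y hy
        exact ⟨t, fun _ => h1⟩
      · exact ⟨0, fun h1 => absurd h1 hy⟩
    choose t ht using hex
    have h1 := h X K σ S F t hX hF
    have h2 : ∀ y ∈ S, X ^ (1 / 2 + 4 * η) / 8 ≤
        (‖F y (1 / 2 + t y * Complex.I)‖ / (1 + |t y| + |(y.2.2.1 : ℝ)|) ^ A) ^ 4 := by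
      intro y hy
      have hD0 : 0 < q y := by
        have := hXD y hy
        linarith
      have h5 : (q y) ^ (1 / 8 + η) ≤
          ‖F y (1 / 2 + t y * Complex.I)‖ / (1 + |t y| + |(y.2.2.1 : ℝ)|) ^ A := by
        rw [le_div_iff₀ (by positivity), mul_comm]
        exact ((hP y (t y)).1 (ht y hy)).le
      have h6 := pow_le_pow_left₀ (by positivity) h5 4
      refine le_trans ?_ h6
      rw [← Real.rpow_natCast ((q y) ^ (1 / 8 + η)), ← Real.rpow_mul hD0.le]
      have h7 : (1 / 8 + η) * ((4 : ℕ) : ℝ) = 1 / 2 + 4 * η := by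
        push_cast
        ring
      rw [h7]
      have h8 : (X / 4) ^ (1 / 2 + 4 * η) ≤ (q y) ^ (1 / 2 + 4 * η) :=
        Real.rpow_le_rpow (by positivity) (hXD y hy) (by linarith)
      refine le_trans ?_ h8
      rw [Real.div_rpow hX0.le (by norm_num)]
      refine div_le_div_of_nonneg_left (by positivity) (by positivity) ?_
      have h9 : (4 : ℝ) ^ (1 / 2 + 4 * η) ≤ (4 : ℝ) ^ (3 / 2 : ℝ) :=
        Real.rpow_le_rpow_of_exponent_le (by norm_num) (by linarith)
      refine h9.trans (le_of_eq ?_)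
      rw [show (4 : ℝ) = 2 ^ (2 : ℝ) by norm_num, ← Real.rpow_mul (by norm_num)]
      norm_num
    have h3 := (Finset.sum_le_sum h2).trans h1
    rw [Finset.sum_const, nsmul_eq_mul] at h3
    have h5 : X ^ (3 / 2 + ε) = X ^ (1 - 4 * η + ε) * X ^ (1 / 2 + 4 * η) := by
      rw [← Real.rpow_add hX0]
      congr 1
      ring
    rw [h5] at h3
    have h6 : 0 < X ^ (1 / 2 + 4 * η) := by positivity
    refine le_of_mul_le_mul_right ?_ h6
    linarith
  have key : ∀ m : ℕ, ∀ (X : ℝ) (S : Finset (IX K)), 1 ≤ X → X ≤ 4 ^ m → Fam K σ S F 0 X →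
      (∀ y ∈ S, ∃ t : ℝ, P y t) → (S.card : ℝ) ≤ C * X ^ (1 - 4 * η + ε) := by
    intro m
    induction m with
    | zero =>
      intro X S hX hX1 hF hS
      rw [pow_zero] at hX1
      have hX2 : 0 < X ^ (1 - 4 * η + ε) := by positivity
      have h1 := one X S hX hF (fun y hy => by
        have h3 := hqpos X S hF y hy
        linarith) hS
      refine h1.trans (mul_le_mul_of_nonneg_right ?_ hX2.le)
      have := mul_pos hC0 h40
      linarith
    | succ m ih =>
      intro X S hX hXm hF hS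
      have hX0 : 0 < X := by linarith
      have hX2 : 0 < X ^ (1 - 4 * η + ε) := by positivity
      have hsub : ∀ (p : IX K → Prop) [DecidablePred p], Fam K σ (S.filter p) F 0 X ∧
          (∀ y ∈ S.filter p, ∃ t : ℝ, P y t) := by
        intro p _
        exact ⟨⟨fun y hy => hF.q y (Finset.mem_filter.1 hy).1,
          fun y hy => hF.iq y (Finset.mem_filter.1 hy).1,
          fun y hy => hF.ch y (Finset.mem_filter.1 hy).1,
          fun y hy => hF.lf y (Finset.mem_filter.1 hy).1⟩,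
          fun y hy => hS y (Finset.mem_filter.1 hy).1⟩
      have hcard : (S.card : ℝ) = ((S.filter fun y => X / 4 ≤ q y).card : ℝ) +
          ((S.filter fun y => ¬ X / 4 ≤ q y).card : ℝ) := by
        have h1 := Finset.card_filter_add_card_filter_not (s := S) (fun y => X / 4 ≤ q y)
        exact_mod_cast h1.symm
      have h1 := one X (S.filter fun y => X / 4 ≤ q y) hX (hsub _).1
        (fun y hy => (Finset.mem_filter.1 hy).2) (hsub _).2
      have h2 : ((S.filter fun y => ¬ X / 4 ≤ q y).card : ℝ) ≤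
          C * (4 : ℝ) ^ (-ε) * X ^ (1 - 4 * η + ε) := by
        by_cases h3 : X < 4
        · have h4 : (S.filter fun y => ¬ X / 4 ≤ q y) = ∅ := by
            rw [Finset.filter_eq_empty_iff]
            intro y hy h5
            have h7 := hqpos X S hF y hy
            apply h5
            linarith
          rw [h4, Finset.card_empty, Nat.cast_zero]
          positivity
        · push Not at h3
          have h4 := ih (X / 4) (S.filter fun y => ¬ X / 4 ≤ q y) (by linarith)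
            (by rw [pow_succ] at hXm; linarith) ⟨fun y hy => by
              obtain ⟨h5, h6⟩ := Finset.mem_filter.1 hy
              have h7 := hF.q y h5
              rw [hq] at h6
              exact ⟨h7.1, by linarith [not_le.1 h6]⟩,
              fun y hy => hF.iq y (Finset.mem_filter.1 hy).1,
              fun y hy => hF.ch y (Finset.mem_filter.1 hy).1,
              fun y hy => hF.lf y (Finset.mem_filter.1 hy).1⟩ (hsub _).2
          refine h4.trans ?_
          rw [Real.div_rpow hX0.le (by norm_num), mul_assoc]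
          refine mul_le_mul_of_nonneg_left ?_ hC0.le
          rw [div_eq_mul_inv, mul_comm, ← Real.rpow_neg (by norm_num)]
          refine mul_le_mul_of_nonneg_right ?_ hX2.le
          exact Real.rpow_le_rpow_of_exponent_le (by norm_num) (by linarith)
      rw [hcard]
      have h3 : 8 * C₁ * X ^ (1 - 4 * η + ε) ≤ 16 * C₁ * X ^ (1 - 4 * η + ε) :=
        mul_le_mul_of_nonneg_right (by linarith) hX2.le
      calc _ ≤ 16 * C₁ * X ^ (1 - 4 * η + ε) + C * (4 : ℝ) ^ (-ε) * X ^ (1 - 4 * η + ε) := by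
            linarith
        _ = (16 * C₁ + C * (4 : ℝ) ^ (-ε)) * X ^ (1 - 4 * η + ε) := by ring
        _ = C * X ^ (1 - 4 * η + ε) := by rw [hCe]
  -- the choice of the members
  have hch : ∀ p : ℕ × ℕ, ∃ y : IX K, p ∈ T → y ∈ S₁ ∧ y.1 = p.1 ∧ y.2.1 = p.2 ∧
      ∃ t : ℝ, P y t := by
    intro p
    by_cases hp : p ∈ T
    · obtain ⟨y, h1, h2, h3, t, h5⟩ := hT p hp
      exact ⟨y, fun _ => ⟨h1, h2, h3, t, (hP y t).2 (by rw [hq]; exact h5)⟩⟩
    · by_cases hne : T.Nonempty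
      · obtain ⟨p', hp'⟩ := hne
        obtain ⟨y, -⟩ := hT p' hp'
        exact ⟨y, fun h => absurd h hp⟩
      · exact ⟨⟨0, 0, 0, fun _ => 0⟩, fun h => absurd h hp⟩
  choose Y hY using hch
  have hinj : Set.InjOn Y T := by
    intro p hp p' hp' hpp
    have h1 := hY p hp
    have h2 := hY p' hp'
    refine Prod.ext ?_ ?_
    · rw [← h1.2.1, ← h2.2.1, hpp]
    · rw [← h1.2.2.1, ← h2.2.2.1, hpp]
  have hmem : ∀ y ∈ T.image Y, y ∈ S₁ ∧ ∃ t : ℝ, P y t := by
    intro y hy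
    obtain ⟨p, hp, rfl⟩ := Finset.mem_image.1 hy
    exact ⟨(hY p hp).1, (hY p hp).2.2.2⟩
  obtain ⟨m, hm⟩ := pow_unbounded_of_one_lt X₀ (show (1 : ℝ) < 4 by norm_num)
  have hfin := key m X₀ (T.image Y) hX₀ hm.le ⟨fun y hy => hF₁.q y (hmem y hy).1,
    fun y hy => hF₁.iq y (hmem y hy).1, fun y hy => hF₁.ch y (hmem y hy).1,
    fun y hy => hF₁.lf y (hmem y hy).1⟩ (fun y hy => (hmem y hy).2)
  rwa [Finset.card_image_of_injOn hinj] at hfin

end Pool.Agent.H68.FC
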