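import Pool.Agent.H95.FC.Targets
import Pool.Agent.H60.FM.VIG

/-!
# Row ADFX of the board `fmx_modules`: the data exist
-/

set_option autoImplicit false

open MeasureTheory Set Filter NumberField
open scoped Real nonZeroDivisors Matrix MatrixGroups

namespace Pool.Agent.H68.FC

open Pool.Agent.H31.CN Pool.Agent.H89.FM Pool.Agent.H61.FM Pool.Agent.H89.FC Pool.Agent.H95.FC

theorem pf_DFX (hLTX : Pool.Agent.H95.FC.T_LTX) : Pool.Agent.H95.FC.T_DFX := by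
  intro K _ _ D f R hIQ hf
  have h1 : ∀ c, 0 < un K ∧ ∃ b : ℤ × ℤ → (Ideal (𝓞 K))⁰,
      VB (R.I c) (R.α c) (R.β c) (R.Q c) b := by
    intro c
    obtain ⟨h0, b, hb1, hb2, hb3, hb4⟩ := Pool.Agent.H60.FM.pf_VIG K D R.σ hIQ (R.I c) (R.α c)
      (R.β c) (R.Q c) (R.ob c)
    exact ⟨h0, b, hb1, fun v hv => (hb2 v hv).1, fun v hv => (hb2 v hv).2, hb3, hb4⟩
  choose h0 b hb using h1
  have h2 : ∀ c, ∃ (T : Finset (ℤ × ℤ)) (W : ℤ × ℤ → ℤ × ℤ), LT f (R.Q c) T W :=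
    fun c => hLTX f (R.Q c) hf
  choose T W hTW using h2
  exact ⟨h0 1, b, T, W, hb, hTW⟩

end Pool.Agent.H68.FC
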