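import Pool.Agent.H9.FC.TA

/-! Closure of a countable set under countably many operations of finite arity. -/

namespace Pool.Agent.H68.FC.CLO

open Pool.Agent.H9.FC

/-- one step of the closure -/
def step {S : Type 1} (s₀ : S) (op : ℕ → (ℕ → S) → S) (ar : ℕ → ℕ) (X : Set S) : Set S :=
  X ∪ ⋃ c : ℕ, Set.range (fun u : Fin (ar c) → X =>
    op c (fun i => if h : i < ar c then (u ⟨i, h⟩).1 else s₀))

theorem step_countable {S : Type 1} (s₀ : S) (op : ℕ → (ℕ → S) → S) (ar : ℕ → ℕ) (X : Set S)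
    (hX : X.Countable) : (step s₀ op ar X).Countable := by
  have : Countable X := hX
  refine hX.union (Set.countable_iUnion fun c => Set.countable_range _)

/-- iterated closure -/
def its {S : Type 1} (s₀ : S) (op : ℕ → (ℕ → S) → S) (ar : ℕ → ℕ) : ℕ → Set S
  | 0 => {s₀}
  | n + 1 => step s₀ op ar (its s₀ op ar n)

theorem pf_CLO : T_CLO := by
  intro S s₀ op ar hdep
  classical
  let Y := its s₀ op ar
  have hmono : Monotone Y := monotone_nat_of_le_succ fun n => Set.subset_union_left
  have hcount : ∀ n, (Y n).Countable := by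
    intro n
    induction n with
    | zero => exact Set.countable_singleton _
    | succ n ih => exact step_countable s₀ op ar _ ih
  refine ⟨⋃ n, Y n, Set.countable_iUnion hcount, Set.mem_iUnion.2 ⟨0, rfl⟩, ?_⟩
  intro c v hv
  have hv' : ∀ i, ∃ n, v i ∈ Y n := fun i => Set.mem_iUnion.1 (hv i)
  choose f hf using hv'
  let n := (Finset.range (ar c)).sup f
  have hn : ∀ i, i < ar c → v i ∈ Y n := fun i hi =>
    hmono (Finset.le_sup (f := f) (Finset.mem_range.2 hi)) (hf i)
  refine Set.mem_iUnion.2 ⟨n + 1, Or.inr (Set.mem_iUnion.2 ⟨c, ?_⟩)⟩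
  refine ⟨fun i => ⟨v i, hn i i.2⟩, ?_⟩
  refine hdep c _ _ fun i hi => ?_
  simp [hi]

end Pool.Agent.H68.FC.CLO
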