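import Pool.Agent.H9.FC.TA

/-! Existence of generic quotients. -/

namespace Pool.Agent.H68.FC.EXG

open Pool.Agent.H9.FC BSet

deriving instance Countable for Fml

/-- extension of a finite sequence by a constant -/
def cut {S : Type 1} (s₀ : S) (n : ℕ) (v : ℕ → S) : ℕ → S := fun i => if i < n then v i else s₀

theorem exists_sk (h3 : T_MAX) (h4 : T_FE) (B : Type) [CompleteBooleanAlgebra B] (φ : Fml)
    (i : ℕ) (v : ℕ → BSet B) :
    ∃ x, fv φ (Function.update v i x) = ⨆ y, fv φ (Function.update v i y) :=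
  h3 B (fun x => fv φ (Function.update v i x)) ((h4 B φ).1 v i)

theorem cut_congr {S : Type 1} (s₀ : S) (n : ℕ) (v v' : ℕ → S) (h : ∀ i < n, v i = v' i) :
    cut s₀ n v = cut s₀ n v' := by
  funext i
  unfold cut
  split_ifs with hi
  · exact h i hi
  · rfl

theorem pf_EXG (h1 : T_CLO) (h2 : T_RSG) (h3 : T_MAX) (h4 : T_FE) : T_EXG := by
  intro B _ _ op ar J jr hop hJ
  classical
  let s₀ : BSet B := bnum 0
  choose sk hsk using fun (φ : Fml) (i : ℕ) (v : ℕ → BSet B) =>
    exists_sk h3 h4 B φ i (cut s₀ φ.bd v)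
  have : Nonempty Fml := ⟨.fal⟩
  obtain ⟨e, he⟩ := exists_surjective_nat (Fml × ℕ)
  let op' : ℕ ⊕ ℕ → (ℕ → BSet B) → BSet B := fun s v =>
    Sum.elim (fun c => op c v) (fun c => sk (e c).1 (e c).2 (cut s₀ (e c).1.bd v)) s
  let ar' : ℕ ⊕ ℕ → ℕ := Sum.elim ar (fun c => (e c).1.bd)
  obtain ⟨X, hXc, hX0, hX⟩ := h1 (BSet B) s₀ (fun n => op' (Equiv.natSumNatEquivNat.symm n))
    (fun n => ar' (Equiv.natSumNatEquivNat.symm n)) (by
      intro n v v' hv
      change op' (Equiv.natSumNatEquivNat.symm n) v = op' (Equiv.natSumNatEquivNat.symm n) v'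
      generalize Equiv.natSumNatEquivNat.symm n = s at hv
      cases s with
      | inl c => exact hop c v v' hv
      | inr c =>
        have hv' : ∀ i < (e c).1.bd, v i = v' i := hv
        change sk (e c).1 (e c).2 (cut s₀ (e c).1.bd v) = sk (e c).1 (e c).2 (cut s₀ (e c).1.bd v')
        rw [cut_congr s₀ (e c).1.bd v v' hv'])
  have hXop : ∀ c v, (∀ i, v i ∈ X) → op c v ∈ X := by
    intro c v hv
    have := hX (Equiv.natSumNatEquivNat (Sum.inl c)) v hv
    simp only [Equiv.symm_apply_apply] at this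
    exact this
  have hXsk : ∀ φ i v, (∀ i, v i ∈ X) → sk φ i (cut s₀ φ.bd v) ∈ X := by
    intro φ i v hv
    obtain ⟨c, hc⟩ := he (φ, i)
    have := hX (Equiv.natSumNatEquivNat (Sum.inr c)) v hv
    simp only [Equiv.symm_apply_apply] at this
    change sk (e c).1 (e c).2 (cut s₀ (e c).1.bd v) ∈ X at this
    rw [hc] at this
    exact this
  have hcX : Countable X := hXc
  have : Nonempty (Σ c : ℕ, (Fin (jr c) → X)) := ⟨⟨0, fun _ => ⟨s₀, hX0⟩⟩⟩
  obtain ⟨g, hg⟩ := exists_surjective_nat (Σ c : ℕ, (Fin (jr c) → X))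
  let ext : (Σ c : ℕ, (Fin (jr c) → X)) → (ℕ → BSet B) := fun s i =>
    if h : i < jr s.1 then (s.2 ⟨i, h⟩).1 else s₀
  obtain ⟨G, hG1, hG2, hG3, hG4, hG5, hG6⟩ := h2 B (fun k n => J (g k).1 (ext (g k)) n)
  refine ⟨{ X := X, G := G, top_mem := hG1, bot_not_mem := hG2,
            inf_mem := fun {a c} h h' => hG3 a c h h', up := fun {a c} h h' => hG4 a c h h',
            ultra := hG5, nonempty := ⟨s₀, hX0⟩, skolem := ?_ }, hXop, ?_⟩
  · intro φ v hv i
    refine ⟨sk φ i (cut s₀ φ.bd v), hXsk φ i v hv, ?_⟩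
    have hz : ∀ z, fv φ (Function.update v i z) =
        fv φ (Function.update (cut s₀ φ.bd (cut s₀ φ.bd v)) i z) := by
      intro z
      refine (h4 B φ).2 _ _ fun j hj => ?_
      by_cases hji : j = i
      · subst hji; simp
      · rw [Function.update_of_ne hji, Function.update_of_ne hji]
        simp [cut, hj]
    rw [hz, hsk φ i (cut s₀ φ.bd v)]
    exact iSup_congr fun z => (hz z).symm
  · intro c v hv h
    obtain ⟨k, hk⟩ := hg ⟨c, fun i => ⟨v i, hv i⟩⟩
    have hJ' : J (g k).1 (ext (g k)) = J c v := by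
      rw [hk]
      refine hJ c _ _ fun i hi => ?_
      simp only [ext]
      rw [dif_pos hi]
    have := hG6 k (by
      change (⨆ n, J (g k).1 (ext (g k)) n) ∈ G
      rw [hJ']; exact h)
    obtain ⟨n, hn⟩ := this
    refine ⟨n, ?_⟩
    rw [hJ'] at hn
    exact hn

end Pool.Agent.H68.FC.EXG
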