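import Pool.Agent.H9.FC.TC
import Pool.Agent.H9.FC.TA

/-! Witnesses for the failure of being a function. -/

namespace Pool.Agent.H68.FC.FNC

open Pool.Agent.H9.FC BSet

theorem nfun_congr (h2 : T_NUM) (B : Type) [CompleteBooleanAlgebra B] (g a c c' a1 c1 c1' : BSet B) :
    (beq a a1 ⊓ beq c c1 ⊓ beq c' c1') ⊓ nfun g a c c' ≤ nfun g a1 c1 c1' := by
  have hop := (h2 B).2.2.2.1
  have ha : (beq a a1 ⊓ beq c c1 ⊓ beq c' c1') ≤ beq a a1 := inf_le_left.trans inf_le_left
  have hc : (beq a a1 ⊓ beq c c1 ⊓ beq c' c1') ≤ beq c c1 := inf_le_left.trans inf_le_right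
  have hc' : (beq a a1 ⊓ beq c c1 ⊓ beq c' c1') ≤ beq c' c1' := inf_le_right
  unfold nfun
  generalize (beq a a1 ⊓ beq c c1 ⊓ beq c' c1') = e at ha hc hc'
  refine le_inf (le_inf ?_ ?_) ?_
  · refine le_trans ?_ (bmem_congr_left (bop a c) (bop a1 c1) g)
    rw [hop]
    exact inf_le_inf (le_inf ha hc) (inf_le_left.trans inf_le_left)
  · refine le_trans ?_ (bmem_congr_left (bop a c') (bop a1 c1') g)
    rw [hop]
    exact inf_le_inf (le_inf ha hc') (inf_le_left.trans inf_le_right)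
  · rw [le_compl_iff_disjoint_right, disjoint_iff_inf_le]
    have h3 : beq c c1 ⊓ beq c1 c1' ≤ beq c c1' := beq_trans _ _ _
    have h4 : beq c c1' ⊓ beq c1' c' ≤ beq c c' := beq_trans _ _ _
    calc e ⊓ (bmem (bop a c) g ⊓ bmem (bop a c') g ⊓ (beq c c')ᶜ) ⊓ beq c1 c1'
        ≤ ((beq c c1 ⊓ beq c1 c1') ⊓ beq c1' c') ⊓ (beq c c')ᶜ := by
          refine le_inf (le_inf (le_inf ?_ inf_le_right) ?_) ?_
          · exact (inf_le_left.trans inf_le_left).trans hc
          · rw [beq_symm c1' c']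
            exact (inf_le_left.trans inf_le_left).trans hc'
          · exact (inf_le_left.trans inf_le_right).trans inf_le_right
      _ ≤ beq c c' ⊓ (beq c c')ᶜ :=
          inf_le_inf_right _ ((inf_le_inf_right _ h3).trans h4)
      _ = ⊥ := inf_compl_self _

theorem pf_FNC (h1 : T_MAX) (h2 : T_NUM) : T_FNC := by
  intro B _ g
  obtain ⟨w, hw⟩ := h1 B (fun a => ⨆ (c : BSet B) (c' : BSet B), nfun g a c c') (by
    intro a a1
    change beq a a1 ⊓ (⨆ (c : BSet B) (c' : BSet B), nfun g a c c') ≤ _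
    rw [inf_iSup_eq]
    refine iSup_mono fun c => ?_
    rw [inf_iSup_eq]
    refine iSup_mono fun c' => ?_
    have := nfun_congr h2 B g a c c' a1 c c'
    rwa [beq_refl, beq_refl, inf_top_eq, inf_top_eq] at this)
  obtain ⟨z, hz⟩ := h1 B (fun c => ⨆ (c' : BSet B), nfun g w c c') (by
    intro c c1
    change beq c c1 ⊓ (⨆ (c' : BSet B), nfun g w c c') ≤ _
    rw [inf_iSup_eq]
    refine iSup_mono fun c' => ?_
    have := nfun_congr h2 B g w c c' w c1 c'
    rwa [beq_refl, beq_refl, inf_top_eq, top_inf_eq] at this)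
  obtain ⟨z', hz'⟩ := h1 B (fun c' => nfun g w z c') (by
    intro c' c1'
    have := nfun_congr h2 B g w z c' w z c1'
    rwa [beq_refl, beq_refl, top_inf_eq, top_inf_eq] at this)
  refine ⟨w, z, z', fun a c c' => ?_⟩
  have e1 : nfun g a c c' ≤ ⨆ (a : BSet B), ⨆ (c : BSet B) (c' : BSet B), nfun g a c c' :=
    le_iSup_of_le a (le_iSup_of_le c (le_iSup_of_le c' le_rfl))
  have e2 : (⨆ (a : BSet B), ⨆ (c : BSet B) (c' : BSet B), nfun g a c c') =
      ⨆ (c : BSet B) (c' : BSet B), nfun g w c c' := hw.symm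
  have e3 : (⨆ (c : BSet B) (c' : BSet B), nfun g w c c') = ⨆ (c' : BSet B), nfun g w z c' := hz.symm
  have e4 : (⨆ (c' : BSet B), nfun g w z c') = nfun g w z z' := hz'.symm
  rw [e2, e3, e4] at e1
  exact e1

end Pool.Agent.H68.FC.FNC
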