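import Pool.Agent.H23.FC.Targets

/-!
# Row KRB of the board `fmx_modules`: bounds for the kernel of weight `2 m`
-/

set_option autoImplicit false

open MeasureTheory Set Filter
open scoped Real Topology

namespace Pool.Agent.H68.FC

open Pool.Agent.H31.CN Pool.Agent.H89.FM Pool.Agent.H89.FC Pool.Agent.H23.FC

/-- the norm of the power of the unit -/
private theorem unit_cpow' (t ph θ : ℝ) (w : ℂ) (hθ : |θ| < π / 2) (hwi : θ * w.im = t * ph) :
    ‖(Complex.exp ((θ : ℂ) * Complex.I)) ^ w‖ = Real.exp (-(t * ph)) := by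
  have hpi := Real.pi_pos
  have harg : (Complex.exp ((θ : ℂ) * Complex.I)).arg = θ := by
    have h1 : Complex.exp ((θ : ℂ) * Complex.I) =
        Complex.cos θ + Complex.sin θ * Complex.I := Complex.exp_mul_I _
    rw [h1]
    refine Complex.arg_cos_add_sin_mul_I ⟨?_, ?_⟩
    · have := (abs_lt.1 hθ).1; linarith
    · have := (abs_lt.1 hθ).2; linarith
  rw [Complex.norm_cpow_of_ne_zero (Complex.exp_ne_zero _), harg, hwi,
    Complex.norm_exp_ofReal_mul_I, Real.one_rpow, one_div, ← Real.exp_neg]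

private theorem tum_inv (m : ℕ) (t : ℝ) : (tum m t)⁻¹ =
    Complex.exp (((-Real.arctan (t / (m + 1)) : ℝ) : ℂ) * Complex.I) := by
  unfold tum
  rw [← Complex.exp_neg]
  congr 1
  push_cast
  ring

private theorem abs_arctan_lt' (x : ℝ) : |Real.arctan x| < π / 2 :=
  abs_lt.2 ⟨Real.neg_pi_div_two_lt_arctan x, Real.arctan_lt_pi_div_two x⟩

private theorem cB_nonneg (m : ℕ) (t : ℝ) : 0 ≤ cB m t := by
  unfold cB
  positivity

/-- the derivative of the kernel -/
private noncomputable def Dkm (m : ℕ) (τ s : ℂ) (r : ℝ) : ℂ :=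
  -(s * kfm m τ s r + phm m (τ * r) * τ ^ s) / r +
    -((1 - s) * kfm m τ⁻¹ (1 - s) r + phm m (τ⁻¹ * r) * τ⁻¹ ^ (1 - s)) / r

private theorem dkm_le (s z p kf' : ℂ) (k q e r σ T1 : ℝ) (hr : 0 < r) (hT1 : 1 ≤ T1)
    (hs : ‖s‖ ≤ T1) (hk : 0 ≤ k) (he : 0 ≤ e)
    (h1 : ‖kf'‖ ≤ k * ‖p‖ * r ^ σ * e) (h2 : ‖z‖ ≤ k * r ^ σ * e) (h3 : ‖p‖ = q) :
    ‖-(s * kf' + z * p) / r‖ ≤ 2 * k * T1 * q * r ^ (σ - 1) * e := by
  subst h3
  have hp := norm_nonneg p
  have hrp : 0 < r ^ σ := Real.rpow_pos_of_pos hr _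
  rw [norm_div, norm_neg, Complex.norm_real, Real.norm_of_nonneg hr.le,
    Real.rpow_sub_one hr.ne']
  have h4 : ‖s * kf' + z * p‖ ≤ 2 * k * T1 * ‖p‖ * r ^ σ * e := by
    calc ‖s * kf' + z * p‖ ≤ ‖s * kf'‖ + ‖z * p‖ := norm_add_le _ _
      _ = ‖s‖ * ‖kf'‖ + ‖z‖ * ‖p‖ := by rw [norm_mul, norm_mul]
      _ ≤ T1 * (k * ‖p‖ * r ^ σ * e) + (k * r ^ σ * e) * ‖p‖ :=
          add_le_add (mul_le_mul hs h1 (norm_nonneg _) (by linarith))
            (mul_le_mul_of_nonneg_right h2 hp)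
      _ = (k * ‖p‖ * r ^ σ * e) * (T1 + 1) := by ring
      _ ≤ (k * ‖p‖ * r ^ σ * e) * (2 * T1) :=
          mul_le_mul_of_nonneg_left (by linarith) (by positivity)
      _ = _ := by ring
  calc ‖s * kf' + z * p‖ / r ≤ (2 * k * T1 * ‖p‖ * r ^ σ * e) / r :=
        div_le_div_of_nonneg_right h4 hr.le
    _ = _ := by ring

theorem pf_KRBc (hKR1 : T_KR1c) : T_KRBc := by
  obtain ⟨C, k, hC, hK⟩ := hKR1
  refine ⟨2 * C, k + 1, 1, by positivity, by norm_num, ?_⟩
  intro m s hs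
  have hm0 : (0 : ℝ) ≤ m := Nat.cast_nonneg m
  have hs' := abs_le.1 hs
  have hT : (1 : ℝ) ≤ 1 + |s.im| + m := by
    have := abs_nonneg s.im
    linarith
  obtain ⟨T, hTd⟩ : ∃ T : ℝ, T = 1 + |s.im| + m := ⟨_, rfl⟩
  rw [← hTd] at hT ⊢
  obtain ⟨τ, hτ⟩ : ∃ τ : ℂ, τ = tum m s.im := ⟨_, rfl⟩
  rw [← hτ]
  have hs2 : |(1 - s).re - 1 / 2| ≤ 1 / 8 := by
    rw [Complex.sub_re, Complex.one_re, abs_le]
    constructor <;> linarith [hs'.1, hs'.2]
  have hre2 : -(1 - s).re = s.re - 1 := by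
    rw [Complex.sub_re, Complex.one_re]; ring
  have hA := hK m s.im τ s (Or.inl hτ) hs
  have hB := hK m s.im τ⁻¹ (1 - s) (Or.inr (by rw [hτ])) hs2
  rw [hre2] at hB
  rw [← hTd] at hA hB
  have hp1 : ‖τ ^ s‖ = Real.exp (-(s.im * Real.arctan (s.im / (m + 1)))) := by
    rw [hτ]
    unfold tum
    exact unit_cpow' s.im _ _ s (abs_arctan_lt' _) (mul_comm _ _)
  have hp2 : ‖τ⁻¹ ^ (1 - s)‖ = Real.exp (-(s.im * Real.arctan (s.im / (m + 1)))) := by
    rw [hτ, tum_inv]
    refine unit_cpow' s.im _ _ (1 - s) (by rw [abs_neg]; exact abs_arctan_lt' _) ?_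
    rw [Complex.sub_im, Complex.one_im]
    ring
  have hB0 := cB_nonneg m s.im
  have hcG : cG m s.im = cB m s.im * Real.exp (-(s.im * Real.arctan (s.im / (m + 1)))) :=
    cG_eq m s.im
  rw [hcG]
  obtain ⟨G, hGd⟩ : ∃ G : ℝ, G = Real.exp (-(s.im * Real.arctan (s.im / (m + 1)))) := ⟨_, rfl⟩
  rw [← hGd] at hp1 hp2 ⊢
  have hG0 : 0 < G := by rw [hGd]; exact Real.exp_pos _
  obtain ⟨B, hBd⟩ : ∃ B : ℝ, B = cB m s.im := ⟨_, rfl⟩
  rw [← hBd] at hA hB hB0 ⊢
  have hsum : ∀ r : ℝ, 0 < r → Kmc m τ s (r : ℂ) = kfm m τ s r + kfm m τ⁻¹ (1 - s) r := by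
    intro r hr
    unfold Kmc kfm
    rw [← integral_add (hA r hr).1 (hB r hr).1]
    refine integral_congr_ae (Eventually.of_forall fun u => ?_)
    simp only
    unfold Kmi
    rw [add_div]
  have hder : ∀ r : ℝ, 0 < r → HasDerivAt (fun r : ℝ => Kmc m τ s (r : ℂ)) (Dkm m τ s r) r := by
    intro r hr
    have h1 := (hA r hr).2.2.1.add (hB r hr).2.2.1
    refine h1.congr_of_eventuallyEq ?_
    filter_upwards [lt_mem_nhds hr] with r' hr'
    exact hsum r' hr'
  refine ⟨?_, ?_⟩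
  · have h1 : ContinuousOn (Dkm m τ s) (Ioi 0) := by
      have c1 : ContinuousOn (kfm m τ s) (Ioi 0) := fun r hr =>
        (hA r hr).2.2.1.continuousAt.continuousWithinAt
      have c2 : ContinuousOn (kfm m τ⁻¹ (1 - s)) (Ioi 0) := fun r hr =>
        (hB r hr).2.2.1.continuousAt.continuousWithinAt
      have c3 : Continuous (phm m) := by
        unfold phm
        fun_prop
      have c4 : Continuous fun r : ℝ => phm m (τ * r) :=
        c3.comp (continuous_const.mul Complex.continuous_ofReal)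
      have c5 : Continuous fun r : ℝ => phm m (τ⁻¹ * r) :=
        c3.comp (continuous_const.mul Complex.continuous_ofReal)
      have c6 : ContinuousOn (fun r : ℝ => (r : ℂ)) (Ioi 0) :=
        Complex.continuous_ofReal.continuousOn
      have c7 : ∀ r ∈ Ioi (0 : ℝ), (r : ℂ) ≠ 0 := fun r hr => by
        exact_mod_cast (ne_of_gt hr)
      unfold Dkm
      exact ((((continuousOn_const.mul c1).add
        (c4.continuousOn.mul continuousOn_const)).neg).div c6 c7).add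
        ((((continuousOn_const.mul c2).add
        (c5.continuousOn.mul continuousOn_const)).neg).div c6 c7)
    refine h1.congr fun r hr => ?_
    exact (hder r hr).deriv
  · intro r hr
    have hexp : Real.exp (-(1 * r / T)) = Real.exp (-(r / T)) := by rw [one_mul]
    rw [hexp]
    refine ⟨(hder r hr).differentiableAt, ?_, ?_⟩
    · rw [hsum r hr]
      obtain ⟨-, a1, -, -⟩ := hA r hr
      obtain ⟨-, b1, -, -⟩ := hB r hr
      rw [hp1] at a1
      rw [hp2] at b1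
      have x1 : 0 < r ^ (-s.re) := Real.rpow_pos_of_pos hr _
      have x2 : 0 < r ^ (s.re - 1) := Real.rpow_pos_of_pos hr _
      obtain ⟨E, hE⟩ : ∃ E : ℝ, E = Real.exp (-(r / T)) := ⟨_, rfl⟩
      have hE0 : 0 < E := by rw [hE]; exact Real.exp_pos _
      rw [← hE] at a1 b1 ⊢
      calc ‖kfm m τ s r + kfm m τ⁻¹ (1 - s) r‖ ≤
            ‖kfm m τ s r‖ + ‖kfm m τ⁻¹ (1 - s) r‖ := norm_add_le _ _
        _ ≤ C * T ^ k * B * G * r ^ (-s.re) * E + C * T ^ k * B * G * r ^ (s.re - 1) * E :=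
            add_le_add a1 b1
        _ = C * T ^ k * (B * G) * (r ^ (-s.re) + r ^ (s.re - 1)) * E * 1 := by ring
        _ ≤ C * T ^ k * (B * G) * (r ^ (-s.re) + r ^ (s.re - 1)) * E * (2 * T) :=
            mul_le_mul_of_nonneg_left (by linarith) (by positivity)
        _ = _ := by ring
    · rw [(hder r hr).deriv]
      obtain ⟨-, a1, -, a3⟩ := hA r hr
      obtain ⟨-, b1, -, b3⟩ := hB r hr
      obtain ⟨E, hE⟩ : ∃ E : ℝ, E = Real.exp (-(r / T)) := ⟨_, rfl⟩
      have hE0 : 0 < E := by rw [hE]; exact Real.exp_pos _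
      rw [← hE] at a1 b1 a3 b3 ⊢
      have hns : ‖s‖ ≤ T := by
        refine (Complex.norm_le_abs_re_add_abs_im s).trans ?_
        have : |s.re| ≤ 1 := by
          rw [abs_le]
          constructor <;> linarith [hs'.1, hs'.2]
        rw [hTd]
        linarith
      have hns2 : ‖1 - s‖ ≤ T := by
        refine (Complex.norm_le_abs_re_add_abs_im (1 - s)).trans ?_
        have h1 : |(1 - s).re| ≤ 1 := by
          rw [Complex.sub_re, Complex.one_re, abs_le]
          constructor <;> linarith [hs'.1, hs'.2]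
        have h2 : |(1 - s).im| = |s.im| := by
          rw [Complex.sub_im, Complex.one_im, zero_sub, abs_neg]
        rw [hTd]
        linarith
      have g1 := dkm_le s (phm m (τ * r)) (τ ^ s) (kfm m τ s r) (C * T ^ k * B) G E r (-s.re) T
        hr hT hns (by positivity) hE0.le a1 a3 hp1
      have g2 := dkm_le (1 - s) (phm m (τ⁻¹ * r)) (τ⁻¹ ^ (1 - s)) (kfm m τ⁻¹ (1 - s) r)
        (C * T ^ k * B) G E r (s.re - 1) T hr hT hns2 (by positivity) hE0.le b1 b3 hp2
      have e3 : s.re - 1 - 1 = s.re - 2 := by ring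
      rw [e3] at g2
      unfold Dkm
      refine (norm_add_le _ _).trans ((add_le_add g1 g2).trans (le_of_eq ?_))
      ring

end Pool.Agent.H68.FC
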