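import Pool.Agent.H9.FC.TA

/-! The maximum principle for Boolean valued sets. -/

namespace Pool.Agent.H68.FC.MAX

open Pool.Agent.H9.FC BSet

/-- disjointification of a family indexed by a well-ordered type -/
theorem exists_disjoint (B : Type) [CompleteBooleanAlgebra B] (b : B → B) :
    ∃ a : B → B, (∀ c, a c ≤ b c) ∧ (∀ c c', c ≠ c' → a c ⊓ a c' = ⊥) ∧
      ∀ c, b c ≤ ⨆ c', a c' := by
  classical
  let r : B → B → Prop := WellOrderingRel
  let s : B → B := fun c => ⨆ (c') (_ : r c' c), b c'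
  let a : B → B := fun c => b c ⊓ (s c)ᶜ
  have hlt : ∀ c c', r c' c → a c ⊓ a c' = ⊥ := by
    intro c c' h
    have h1 : b c' ≤ s c := le_iSup₂_of_le c' h le_rfl
    have h2 : a c ≤ (b c')ᶜ := inf_le_right.trans (compl_le_compl h1)
    have h3 : a c' ≤ b c' := inf_le_left
    refine le_bot_iff.1 ?_
    calc a c ⊓ a c' ≤ (b c')ᶜ ⊓ b c' := inf_le_inf h2 h3
      _ = ⊥ := compl_inf_self _
  refine ⟨a, fun c => inf_le_left, ?_, ?_⟩
  · intro c c' hne
    rcases trichotomous_of r c c' with h | h | h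
    · rw [inf_comm]; exact hlt _ _ h
    · exact absurd h hne
    · exact hlt _ _ h
  · intro c
    have hwf : WellFounded r := IsWellFounded.wf
    induction c using hwf.induction with
    | h c ih =>
      have h1 : s c ≤ ⨆ c', a c' := iSup₂_le fun c' h => ih c' h
      calc b c = (b c ⊓ s c) ⊔ (b c ⊓ (s c)ᶜ) := by rw [← inf_sup_left, sup_compl_eq_top, inf_top_eq]
        _ ≤ ⨆ c', a c' := sup_le (inf_le_right.trans h1) (le_iSup a c)

theorem pf_MAX : T_MAX := by
  intro B _ F hF
  classical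
  let b : B → B := fun c => if ∃ y, F y = c then c else ⊥
  have hy : ∀ c : B, ∃ y : BSet B, b c ≤ F y := by
    intro c
    by_cases h : ∃ y, F y = c
    · obtain ⟨y, hy⟩ := h
      refine ⟨y, ?_⟩
      simp only [b]
      rw [if_pos ⟨y, hy⟩, hy]
    · refine ⟨bnum 0, ?_⟩
      simp only [b]
      rw [if_neg h]
      exact bot_le
  choose y hy using hy
  obtain ⟨a, hab, hdis, hsup⟩ := exists_disjoint B b
  let x : BSet B := BSet.mk (Σ c : B, (y c).type) (fun q => (y q.1).func q.2)
    (fun q => a q.1 ⊓ (y q.1).bval q.2)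
  have hx : ∀ c, a c ≤ beq x (y c) := by
    intro c
    rw [beq_eq]
    refine le_inf (le_iInf fun q => ?_) (le_iInf fun j => ?_)
    · rw [le_himp_iff]
      obtain ⟨c', j⟩ := q
      change a c ⊓ (a c' ⊓ (y c').bval j) ≤ bmem ((y c').func j) (y c)
      by_cases h : c = c'
      · subst h
        exact (inf_le_right.trans inf_le_right).trans (bval_le_bmem _ _)
      · rw [← inf_assoc, hdis c c' h, bot_inf_eq]
        exact bot_le
    · rw [le_himp_iff]
      exact bval_le_bmem x ⟨c, j⟩
  refine ⟨x, le_antisymm (le_iSup F x) (iSup_le fun z => ?_)⟩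
  have h1 : ∀ c, a c ≤ F x := by
    intro c
    refine le_trans ?_ (hF (y c) x)
    rw [beq_symm]
    exact le_inf (hx c) ((hab c).trans (hy c))
  have h2 : F z = b (F z) := by
    simp only [b]
    rw [if_pos ⟨z, rfl⟩]
  rw [h2]
  exact (hsup _).trans (iSup_le h1)

end Pool.Agent.H68.FC.MAX
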