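import Pool.Agent.H9.FC.TA

/-! Rasiowa-Sikorski. -/

namespace Pool.Agent.H68.FC.RSG

open Pool.Agent.H9.FC Order

theorem exists_next {B : Type} [CompleteBooleanAlgebra B] (J : ℕ → B) (q : B) (hq : q ≠ ⊥) :
    ∃ q', q' ≤ q ∧ q' ≠ ⊥ ∧ (q' ≤ (⨆ n, J n)ᶜ ∨ ∃ n, q' ≤ J n) := by
  by_cases h : q ⊓ (⨆ n, J n)ᶜ = ⊥
  · have h1 : q ≤ ⨆ n, J n := by
      have := disjoint_iff.2 h
      rwa [disjoint_compl_right_iff] at this
    have h2 : ∃ n, q ⊓ J n ≠ ⊥ := by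
      by_contra hcon
      push Not at hcon
      apply hq
      calc q = q ⊓ ⨆ n, J n := (inf_eq_left.2 h1).symm
        _ = ⨆ n, q ⊓ J n := inf_iSup_eq _ _
        _ = ⊥ := by simp [hcon]
    obtain ⟨n, hn⟩ := h2
    exact ⟨q ⊓ J n, inf_le_left, hn, Or.inr ⟨n, inf_le_right⟩⟩
  · exact ⟨_, inf_le_left, h, Or.inl inf_le_right⟩

theorem pf_RSG : T_RSG := by
  intro B _ _ J
  classical
  choose f hf1 hf2 hf3 using fun (k : ℕ) (q : {q : B // q ≠ ⊥}) => exists_next (J k) q.1 q.2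
  let q : ℕ → {q : B // q ≠ ⊥} := fun k =>
    Nat.rec (motive := fun _ => {q : B // q ≠ ⊥}) ⟨⊤, top_ne_bot⟩
      (fun k q => ⟨f k q, hf2 k q⟩) k
  have hq1 : ∀ k, (q (k + 1)).1 = f k (q k) := fun k => rfl
  have hanti : Antitone (fun k => (q k).1) := antitone_nat_of_succ_le fun k => by
    change (q (k + 1)).1 ≤ _
    rw [hq1]; exact hf1 k (q k)
  have hF : IsPFilter {a : B | ∃ k, (q k).1 ≤ a} := by
    refine IsPFilter.of_def ⟨⊤, 0, le_top⟩ ?_ ?_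
    · rintro a ⟨k, hk⟩ c ⟨l, hl⟩
      refine ⟨(q (max k l)).1, ⟨max k l, le_rfl⟩, ?_, ?_⟩
      · exact (hanti (le_max_left k l)).trans hk
      · exact (hanti (le_max_right k l)).trans hl
    · rintro a c hac ⟨k, hk⟩
      exact ⟨k, hk.trans hac⟩
  have hdis : Disjoint (hF.toPFilter : Set B) ((Ideal.principal (⊥ : B) : Ideal B) : Set B) := by
    rw [Set.disjoint_left]
    rintro a ⟨k, hk⟩ ha
    have ha' : a ≤ ⊥ := ha
    exact (q k).2 (le_bot_iff.1 (hk.trans ha'))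
  obtain ⟨I, hI, _, hFI⟩ := DistribLattice.prime_ideal_of_disjoint_filter_ideal hdis
  have hmem : ∀ k a, (q k).1 ≤ a → a ∉ I := by
    intro k a hk ha
    exact Set.disjoint_left.1 hFI (show a ∈ {a : B | ∃ k, (q k).1 ≤ a} from ⟨k, hk⟩) ha
  have hbot : (⊥ : B) ∈ I := Ideal.bot_mem I
  refine ⟨{a | a ∉ I}, hmem 0 _ le_top, fun h => h hbot, ?_, ?_, ?_, ?_⟩
  · intro a c ha hc h
    rcases hI.mem_or_mem h with h | h
    · exact ha h
    · exact hc h
  · intro a c ha hac h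
    exact ha (I.lower hac h)
  · intro a
    by_contra hcon
    push Not at hcon
    have h1 : a ∈ I := by by_contra h; exact hcon.1 h
    have h2 : aᶜ ∈ I := by by_contra h; exact hcon.2 h
    have h3 : a ⊔ aᶜ ∈ I := Ideal.sup_mem h1 h2
    rw [sup_compl_eq_top] at h3
    exact hmem 0 _ le_top h3
  · intro k hk
    have h1 := hf3 k (q k)
    rw [← hq1] at h1
    rcases h1 with h1 | ⟨n, hn⟩
    · exfalso
      have h2 : (⨆ n, J k n)ᶜ ∉ I := hmem (k + 1) _ h1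
      have h3 : (⨆ n, J k n) ⊓ (⨆ n, J k n)ᶜ ∈ I := by
        rw [inf_compl_eq_bot]; exact hbot
      rcases hI.mem_or_mem h3 with h | h
      · exact hk h
      · exact h2 h
    · exact ⟨n, hmem (k + 1) _ hn⟩

end Pool.Agent.H68.FC.RSG
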